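import Pool.Agent.H26.LP.Stm
import Pool.Graph.R_pool_sql_team_seeded_3997aac3.Q216.TC.Cau
import Pool.Graph.R_pool_sql_team_seeded_3997aac3.Q16.TR.L2B

/-!
# Project LP, module EIG: the functional is an eigenvector
-/

set_option autoImplicit false

namespace Pool.Agent.H50.LP

open MeasureTheory Set Metric Filter Topology
open scoped InnerProductSpace ENNReal NNReal ComplexConjugate
open Pool.Agent.Q130.TC (WT cau)
open Pool.Agent.Q130.TR
open Pool.Agent.H26.LP

lemma sq_range {c : ℕ → ℂ} {A : ℝ} (hA : 0 ≤ A)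
    (h : ∀ m : ℕ, ∑ j ∈ Finset.range m, ‖c j‖ ^ 2 ≤ A ^ 2) : Sq c ∧ n2 c ≤ A := by
  have h1 : Sq c := summable_of_sum_range_le (fun _ => by positivity) h
  refine ⟨h1, ?_⟩
  unfold n2
  rw [← Real.sqrt_sq hA]
  exact Real.sqrt_le_sqrt (Real.tsum_le_of_sum_range_le (fun _ => by positivity) h)

lemma range_le {c : ℕ → ℂ} (hc : Sq c) (m : ℕ) :
    √(∑ j ∈ Finset.range m, ‖c j‖ ^ 2) ≤ n2 c := by
  unfold n2
  exact Real.sqrt_le_sqrt (Summable.sum_le_tsum _ (fun _ _ => by positivity) hc)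

lemma cs_range {a c : ℕ → ℂ} (ha : Sq a) (hc : Sq c) (m : ℕ) :
    ∑ j ∈ Finset.range m, ‖a j * c j‖ ≤ n2 a * n2 c := by
  calc ∑ j ∈ Finset.range m, ‖a j * c j‖ = ∑ j ∈ Finset.range m, ‖a j‖ * ‖c j‖ := by
        simp only [norm_mul]
    _ ≤ √(∑ j ∈ Finset.range m, ‖a j‖ ^ 2) * √(∑ j ∈ Finset.range m, ‖c j‖ ^ 2) :=
        Real.sum_mul_le_sqrt_mul_sqrt _ _ _
    _ ≤ _ := mul_le_mul (range_le ha m) (range_le hc m) (Real.sqrt_nonneg _) (Real.sqrt_nonneg _)

section

variable {S : Type} [MeasurableSpace S] {μ : Measure S}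

/-- sums and integrals -/
theorem swp {a : ℕ → S → ℂ} {A : S → ℝ} (ha : ∀ j, Measurable (a j)) (hA : ∀ s, 0 ≤ A s)
    (hb : ∀ᵐ s ∂μ, ∀ m : ℕ, ∑ j ∈ Finset.range m, ‖a j s‖ ^ 2 ≤ A s ^ 2) {c : ℕ → ℂ} (hc : Sq c)
    {h : S → ℂ} (hh : AEStronglyMeasurable h μ) (hi : Integrable (fun s => A s * ‖h s‖) μ) :
    AEStronglyMeasurable (fun s => ∑' j, a j s * c j) μ ∧
    (∀ᵐ s ∂μ, ‖∑' j, a j s * c j‖ ≤ n2 c * A s) ∧
    Integrable (fun s => (∑' j, a j s * c j) * h s) μ ∧
    HasSum (fun j => (∫ s, a j s * h s ∂μ) * c j) (∫ s, (∑' j, a j s * c j) * h s ∂μ) := by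
  have hsum : ∀ᵐ s ∂μ, Summable fun j => a j s * c j := by
    filter_upwards [hb] with s hs
    exact Pool.Agent.Q16.TR.L2B.summ (sq_range (hA s) hs).1 hc
  have hm : AEStronglyMeasurable (fun s => ∑' j, a j s * c j) μ := by
    refine aestronglyMeasurable_of_tendsto_ae atTop
      (f := fun (m : ℕ) s => ∑ j ∈ Finset.range m, a j s * c j) (fun m => ?_) ?_
    · exact (Finset.measurable_fun_sum _ fun j _ => (ha j).mul_const _).aestronglyMeasurable
    · filter_upwards [hsum] with s hs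
      exact hs.hasSum.tendsto_sum_nat
  have hbd : ∀ᵐ s ∂μ, ‖∑' j, a j s * c j‖ ≤ n2 c * A s := by
    filter_upwards [hb] with s hs
    have h1 := sq_range (hA s) hs
    refine (Pool.Agent.Q16.TR.L2B.cs h1.1 hc).trans ?_
    rw [mul_comm]
    exact mul_le_mul_of_nonneg_left h1.2 (Real.sqrt_nonneg _)
  refine ⟨hm, hbd, ?_, ?_⟩
  · refine Integrable.mono' (hi.const_mul (n2 c)) (hm.mul hh) ?_
    filter_upwards [hbd] with s hs
    rw [norm_mul, ← mul_assoc]
    exact mul_le_mul_of_nonneg_right hs (norm_nonneg _)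
  · have hF : ∀ j, Integrable (fun s => a j s * c j * h s) μ := by
      intro j
      refine Integrable.mono' (hi.const_mul ‖c j‖)
        (((ha j).mul_const _).aestronglyMeasurable.mul hh) ?_
      filter_upwards [hb] with s hs
      have h1 : ‖a j s‖ ≤ A s := by
        have h2 := hs (j + 1)
        rw [Finset.sum_range_succ] at h2
        have h3 : ‖a j s‖ ^ 2 ≤ A s ^ 2 :=
          le_trans (le_add_of_nonneg_left (Finset.sum_nonneg fun _ _ => by positivity)) h2
        exact (pow_le_pow_iff_left₀ (norm_nonneg _) (hA s) two_ne_zero).1 h3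
      rw [norm_mul, norm_mul]
      calc ‖a j s‖ * ‖c j‖ * ‖h s‖ ≤ A s * ‖c j‖ * ‖h s‖ := by gcongr
        _ = ‖c j‖ * (A s * ‖h s‖) := by ring
    have hsn : Summable fun j => ∫ s, ‖a j s * c j * h s‖ ∂μ := by
      refine summable_of_sum_range_le (c := ∫ s, n2 c * (A s * ‖h s‖) ∂μ)
        (fun j => integral_nonneg fun s => norm_nonneg _) fun m => ?_
      rw [← integral_finsetSum _ fun j _ => (hF j).norm]
      refine integral_mono_ae (integrable_finsetSum _ fun j _ => (hF j).norm)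
        (hi.const_mul _) ?_
      filter_upwards [hb] with s hs
      have h1 := sq_range (hA s) hs
      have h2 := cs_range h1.1 hc m
      calc ∑ j ∈ Finset.range m, ‖a j s * c j * h s‖
          = (∑ j ∈ Finset.range m, ‖a j s * c j‖) * ‖h s‖ := by
            rw [Finset.sum_mul]
            exact Finset.sum_congr rfl fun j _ => norm_mul _ _
        _ ≤ (n2 (fun j => a j s) * n2 c) * ‖h s‖ := by gcongr
        _ ≤ (A s * n2 c) * ‖h s‖ := by
            have h3 : 0 ≤ n2 c := Real.sqrt_nonneg _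
            gcongr
            exact h1.2
        _ = _ := by ring
    have h1 := hasSum_integral_of_summable_integral_norm hF hsn
    have h2 : ∀ j, ∫ s, a j s * c j * h s ∂μ = (∫ s, a j s * h s ∂μ) * c j := by
      intro j
      rw [← integral_mul_const]
      refine integral_congr_ae (Eventually.of_forall fun s => ?_)
      show a j s * c j * h s = a j s * h s * c j
      ring
    simp only [h2] at h1
    have h3 : ∫ s, (∑' j, a j s * c j) * h s ∂μ = ∫ s, ∑' j, a j s * c j * h s ∂μ := by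
      refine integral_congr_ae (Eventually.of_forall fun s => ?_)
      exact tsum_mul_right.symm
    rw [h3]
    exact h1

/-- the coefficients are square summable -/
lemma sq_int {a : ℕ → S → ℂ} {B : ℝ} (hB : 0 ≤ B) (ha : ∀ j, Measurable (a j))
    (hb : ∀ᵐ s ∂μ, ∀ m : ℕ, ∑ j ∈ Finset.range m, ‖a j s‖ ^ 2 ≤ B ^ 2)
    {k : S → ℂ} (hk : Integrable k μ) : Sq fun j => ∫ s, a j s * k s ∂μ := by
  refine (sq_range (A := B * ∫ s, ‖k s‖ ∂μ)
    (mul_nonneg hB (integral_nonneg fun s => norm_nonneg _)) fun m => ?_).1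
  set ρ : ℕ → ℂ := fun j => ∫ s, a j s * k s ∂μ with hρ
  set c : ℕ → ℂ := fun j => if j < m then conj (ρ j) else 0 with hc
  have hcs : Sq c := by
    refine summable_of_ne_finset_zero (s := Finset.range m) fun j hj => ?_
    rw [Finset.mem_range] at hj
    simp [hc, hj]
  have hn : n2 c ^ 2 = ∑ j ∈ Finset.range m, ‖ρ j‖ ^ 2 := by
    rw [Pool.Agent.Q16.TR.L2B.n2_sq]
    rw [tsum_eq_sum (s := Finset.range m) fun j hj => by
      rw [Finset.mem_range] at hj
      simp [hc, hj]]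
    refine Finset.sum_congr rfl fun j hj => ?_
    rw [Finset.mem_range] at hj
    simp [hc, hj]
  obtain ⟨h1, h2, h3, h4⟩ := swp (μ := μ) (A := fun _ => B) ha (fun _ => hB) hb hcs
    hk.aestronglyMeasurable (hk.norm.const_mul B)
  have h5 : ∑' j, ρ j * c j = ((n2 c ^ 2 : ℝ) : ℂ) := by
    rw [hn, tsum_eq_sum (s := Finset.range m) fun j hj => by
      rw [Finset.mem_range] at hj
      simp [hc, hj]]
    push_cast
    refine Finset.sum_congr rfl fun j hj => ?_
    rw [Finset.mem_range] at hj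
    simp only [hc, if_pos hj]
    rw [Complex.mul_conj, Complex.normSq_eq_norm_sq]
    push_cast
    rfl
  have h6 : n2 c ^ 2 ≤ n2 c * (B * ∫ s, ‖k s‖ ∂μ) := by
    have h7 := h4.tsum_eq
    rw [h5] at h7
    have h8 : ‖((n2 c ^ 2 : ℝ) : ℂ)‖ = n2 c ^ 2 := by
      rw [Complex.norm_real, Real.norm_of_nonneg (by positivity)]
    rw [← h8, h7]
    calc ‖∫ s, (∑' j, a j s * c j) * k s ∂μ‖ ≤ ∫ s, ‖(∑' j, a j s * c j) * k s‖ ∂μ :=
          norm_integral_le_integral_norm _
      _ ≤ ∫ s, n2 c * B * ‖k s‖ ∂μ := by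
          refine integral_mono_ae h3.norm (hk.norm.const_mul _) ?_
          filter_upwards [h2] with s hs
          rw [norm_mul]
          exact mul_le_mul_of_nonneg_right hs (norm_nonneg _)
      _ = _ := by rw [integral_const_mul, mul_assoc]
  rw [← hn]
  have h9 : 0 ≤ n2 c := Real.sqrt_nonneg _
  have h10 : n2 c ≤ B * ∫ s, ‖k s‖ ∂μ := by
    rcases h9.eq_or_lt with h11 | h11
    · rw [← h11]
      exact mul_nonneg hB (integral_nonneg fun s => norm_nonneg _)
    · rw [sq] at h6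
      exact le_of_mul_le_mul_left h6 h11
  exact pow_le_pow_left₀ h9 h10 2

/-- no atoms, for almost every point -/
lemma noat [SigmaFinite μ] {φ : S → ℂ} (hφ : Measurable φ) : ∀ᵐ z : ℂ, ∀ᵐ s ∂μ, φ s ≠ z := by
  rw [Measure.ae_ae_comm (p := fun z s => φ s ≠ z)]
  · refine Eventually.of_forall fun s => ?_
    have h1 : ∀ᵐ z : ℂ, z ≠ φ s := by
      rw [ae_iff]
      simp
    filter_upwards [h1] with z hz h
    exact hz h.symm
  · exact (measurableSet_eq_fun (hφ.comp measurable_snd) measurable_fst).compl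

end

theorem eig : S_EIG := by
  intro S _ μ _ φ w f B Y hφ _ hw hf k k' hkm hk hkm' hk' h0 hsum
  have hcau := Pool.Agent.Q216.TC.cau_main.1
  set ρ : ℕ → ℂ := fun j => ∫ s, w (j + 1) s * k s ∂μ with hρ
  have hYi : Integrable (fun s => (Y s : ℂ)) μ := hf.int.ofReal
  have hρs : Sq ρ := by
    have h1 := sq_int hw.nonneg hw.meas hw.bound hk
    exact (summable_nat_add_iff 1).2 h1
  filter_upwards [noat (μ := μ) hφ, (hcau S μ φ k hφ hk).2.2, (hcau S μ φ k' hφ hk').2.2,
    (hcau S μ φ _ hφ hYi).2.2] with z n1 i1 i2 i3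
  intro b hb hRK
  -- the bounded function
  have hRm : Measurable fun s => (z - φ s)⁻¹ := (measurable_const.sub hφ).inv
  obtain ⟨g1, g2, g3, g4⟩ := swp (μ := μ) (A := fun _ => B) hw.meas (fun _ => hw.nonneg) hw.bound hb
    i1.aestronglyMeasurable (i1.norm.const_mul B)
  obtain ⟨-, -, k3, k4⟩ := swp (μ := μ) (A := fun _ => B) hw.meas (fun _ => hw.nonneg) hw.bound hb
    i2.aestronglyMeasurable (i2.norm.const_mul B)
  obtain ⟨-, -, l3, l4⟩ := swp (μ := μ) (A := fun _ => B) hw.meas (fun _ => hw.nonneg) hw.bound hb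
    hk.aestronglyMeasurable (hk.norm.const_mul B)
  set g : S → ℂ := fun s => ∑' i, w i s * b i with hg
  have hfY : ∀ j, ∀ᵐ s ∂μ, ‖f j s‖ ≤ Y s := by
    intro j
    filter_upwards [hf.bound] with s hs
    have h2 := hs (j + 1)
    rw [Finset.sum_range_succ] at h2
    have h3 : ‖f j s‖ ^ 2 ≤ Y s ^ 2 :=
      le_trans (le_add_of_nonneg_left (Finset.sum_nonneg fun _ _ => by positivity)) h2
    exact (pow_le_pow_iff_left₀ (norm_nonneg _) (hf.nonneg s) two_ne_zero).1 h3
  have hfR : ∀ j, Integrable (fun s => f j s * (z - φ s)⁻¹) μ := by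
    intro j
    refine Integrable.mono' i3.norm ((hf.meas j).mul hRm).aestronglyMeasurable ?_
    filter_upwards [hfY j] with s hs
    rw [norm_mul, norm_mul, Complex.norm_real, Real.norm_of_nonneg (hf.nonneg s)]
    exact mul_le_mul_of_nonneg_right hs (norm_nonneg _)
  have hfb : ∀ j, ∫ s, g s * (f (j + 1) s * (z - φ s)⁻¹) ∂μ = b (j + 1) := by
    intro j
    obtain ⟨-, -, -, m4⟩ := swp (μ := μ) (A := fun _ => B) hw.meas (fun _ => hw.nonneg) hw.bound hb
      (hfR (j + 1)).aestronglyMeasurable ((hfR (j + 1)).norm.const_mul B)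
    rw [hRK j, ← m4.tsum_eq]
    refine tsum_congr fun i => ?_
    congr 1
    unfold cau
    refine integral_congr_ae (Eventually.of_forall fun s => ?_)
    show w i s * (f (j + 1) s * (z - φ s)⁻¹) = w i s * f (j + 1) s * (z - φ s)⁻¹
    ring
  -- the series of the `f j`
  have hq1 : AEStronglyMeasurable (fun s => g s * (z - φ s)⁻¹) μ :=
    g1.mul hRm.aestronglyMeasurable
  have hq2 : Integrable (fun s => Y s * ‖g s * (z - φ s)⁻¹‖) μ := by
    refine Integrable.mono' (i3.norm.const_mul (n2 b * B))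
      (hf.measY.aestronglyMeasurable.mul hq1.norm) ?_
    filter_upwards [g2] with s hs
    rw [norm_mul, Real.norm_of_nonneg (hf.nonneg s), norm_norm, norm_mul, norm_mul,
      Complex.norm_real, Real.norm_of_nonneg (hf.nonneg s)]
    calc Y s * (‖g s‖ * ‖(z - φ s)⁻¹‖) ≤ Y s * ((n2 b * B) * ‖(z - φ s)⁻¹‖) := by
          have := hf.nonneg s
          gcongr
      _ = _ := by ring
  have hfb' : ∀ᵐ s ∂μ, ∀ m : ℕ, ∑ j ∈ Finset.range m, ‖f (j + 1) s‖ ^ 2 ≤ Y s ^ 2 := by
    filter_upwards [hf.bound] with s hs m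
    refine le_trans ?_ (hs (m + 1))
    rw [Finset.sum_range_succ']
    exact le_add_of_nonneg_right (by positivity)
  obtain ⟨-, -, q3, q4⟩ := swp (μ := μ) (A := Y) (a := fun j => f (j + 1))
    (fun j => hf.meas (j + 1)) hf.nonneg hfb' hρs hq1 hq2
  have hq5 : ∫ s, (∑' j, f (j + 1) s * ρ j) * (g s * (z - φ s)⁻¹) ∂μ = ∑' j, b (j + 1) * ρ j := by
    rw [← q4.tsum_eq]
    refine tsum_congr fun j => ?_
    congr 1
    rw [← hfb j]
    refine integral_congr_ae (Eventually.of_forall fun s => ?_)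
    show f (j + 1) s * (g s * (z - φ s)⁻¹) = g s * (f (j + 1) s * (z - φ s)⁻¹)
    ring
  -- the integral of `g k`
  have hl5 : ∫ s, g s * k s ∂μ = ∑' j, b (j + 1) * ρ j := by
    rw [← l4.tsum_eq, l4.summable.tsum_eq_zero_add, h0, zero_mul, zero_add]
    exact tsum_congr fun j => mul_comm _ _
  -- conclusion
  have e1 : ∑' i, cau μ φ (fun s => w i s * k' s) z * b i =
      ∫ s, g s * (k' s * (z - φ s)⁻¹) ∂μ := by
    rw [← k4.tsum_eq]
    refine tsum_congr fun i => ?_
    congr 1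
    unfold cau
    refine integral_congr_ae (Eventually.of_forall fun s => ?_)
    show w i s * k' s * (z - φ s)⁻¹ = w i s * (k' s * (z - φ s)⁻¹)
    ring
  have e2 : ∑' i, cau μ φ (fun s => w i s * k s) z * b i =
      ∫ s, g s * (k s * (z - φ s)⁻¹) ∂μ := by
    rw [← g4.tsum_eq]
    refine tsum_congr fun i => ?_
    congr 1
    unfold cau
    refine integral_congr_ae (Eventually.of_forall fun s => ?_)
    show w i s * k s * (z - φ s)⁻¹ = w i s * (k s * (z - φ s)⁻¹)
    ring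
  have e3 : ∫ s, g s * (k' s * (z - φ s)⁻¹) ∂μ =
      ∫ s, (z * (g s * (k s * (z - φ s)⁻¹)) - g s * k s +
        (∑' j, f (j + 1) s * ρ j) * (g s * (z - φ s)⁻¹)) ∂μ := by
    refine integral_congr_ae ?_
    filter_upwards [n1, hsum] with s hs1 hs2
    have h3 : (∑' j, f (j + 1) s * ρ j) = k' s - φ s * k s := by
      rw [← hs2.tsum_eq]
      exact tsum_congr fun j => mul_comm _ _
    rw [h3]
    have h4 : z - φ s ≠ 0 := sub_ne_zero.2 (Ne.symm hs1)
    field_simp
    ring
  have G1 : Integrable (fun s => z * (g s * (k s * (z - φ s)⁻¹))) μ := g3.const_mul z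
  have G2 : Integrable (fun s => z * (g s * (k s * (z - φ s)⁻¹)) - g s * k s) μ := G1.sub l3
  rw [e1, e2, e3, integral_add G2 q3, integral_sub G1 l3, integral_const_mul, hq5, hl5]
  ring

end Pool.Agent.H50.LP
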